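import Pool.Agent.Lib_helper57.QI.E0

/-!
# Lemma 4 (F components)
-/

set_option autoImplicit false

namespace H57.QI

variable {H : Type} [Group H]

namespace Geo

variable (D : Geo H)

/-- strictly increasing visiting times of the vertices of the initial part of a segment -/
theorem first_visits (W : List H) (hW : ∀ s ∈ W, D.L s ≤ 1) (m : ℕ) (hm : m ≤ D.L W.prod)
    (h : ℕ → H) (hL : ∀ l ≤ m, D.L (h l) = l)
    (hL' : ∀ l ≤ m, D.L ((h l)⁻¹ * W.prod) = D.L W.prod - l) :
    ∃ T : ℕ → ℕ, (∀ l ≤ m, T l ≤ W.length ∧ D.L ((W.take (T l)).prod⁻¹ * h l) = 0) ∧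
      ∀ l l', l < l' → l' ≤ m → T l < T l' := by
  classical
  have hseg : ∀ l ≤ m, D.L (h l) + D.L ((h l)⁻¹ * W.prod) = D.L W.prod := by
    intro l hl
    rw [hL l hl, hL' l hl]
    omega
  have hex : ∀ l, ∃ t, l ≤ m → t ≤ W.length ∧ D.L ((W.take t).prod⁻¹ * h l) = 0 := by
    intro l
    by_cases hl : l ≤ m
    · obtain ⟨t, ht, ht'⟩ := D.visit W hW (h l) (hseg l hl)
      exact ⟨t, fun _ => ⟨ht, ht'⟩⟩
    · exact ⟨0, fun h => absurd h hl⟩
  refine ⟨fun l => Nat.find (hex l), fun l hl => Nat.find_spec (hex l) hl, ?_⟩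
  intro l l' hll hl'
  have hl : l ≤ m := by omega
  obtain ⟨h1, h2⟩ := Nat.find_spec (hex l') hl'
  obtain ⟨h3, h4⟩ := Nat.find_spec (hex l) hl
  set t' := Nat.find (hex l') with ht'
  have h5 : D.L ((h l)⁻¹ * h l') = l' - l := by
    have := D.seg_dist (hseg l hl) (hseg l' hl') (by rw [hL l hl, hL l' hl']; omega)
    rw [this, hL l hl, hL l' hl']
  -- the prefix up to `t'` visits `h l`
  have h6 : D.L (W.take t').prod = l' := by
    have e : (W.take t').prod = h l' * ((W.take t').prod⁻¹ * h l')⁻¹ := by group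
    rw [e, D.L_mul_P (D.L0_inv h2), hL l' hl']
  have h7 : D.L ((h l)⁻¹ * (W.take t').prod) = l' - l := by
    have e : (h l)⁻¹ * (W.take t').prod = (h l)⁻¹ * h l' * ((W.take t').prod⁻¹ * h l')⁻¹ := by
      group
    rw [e, D.L_mul_P (D.L0_inv h2), h5]
  obtain ⟨t, h8, h9⟩ := D.visit (W.take t') (fun s hs => hW s (List.mem_of_mem_take hs)) (h l) (by
    rw [h6, h7, hL l hl]; omega)
  rw [List.length_take] at h8
  rw [List.take_take, min_eq_left (by omega)] at h9
  have h10 : Nat.find (hex l) ≤ t := Nat.find_le fun _ => ⟨by omega, h9⟩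
  have h11 : Nat.find (hex l) ≠ t' := by
    intro hc
    rw [hc] at h4
    have e : (h l)⁻¹ * h l' = ((W.take t').prod⁻¹ * h l)⁻¹ * ((W.take t').prod⁻¹ * h l') := by
      group
    rw [e, D.L0_mul (D.L0_inv h4) h2] at h5
    omega
  have h12 : Nat.find (hex l) < t' := lt_of_le_of_ne (by omega) h11
  exact h12

end Geo

namespace Auto

variable {D : Geo H} (A : Auto D)

theorem prod_take_map_inv (V : List A.S) (t : ℕ) :
    ((((V.map A.mu).map (fun x => x⁻¹)).reverse.take t).prod)⁻¹ = A.val (V.drop (V.length - t)) := by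
  rw [← List.map_reverse, ← List.map_take, List.take_reverse, List.length_map]
  have := List.prod_inv_reverse ((V.drop (V.length - t)).map A.mu)
  rw [val, ← inv_inj, inv_inv, this, ← List.map_drop, List.map_reverse]

/-- data of a path in an F component -/
structure FPath (p : A.Q) (V : List A.S) : Prop where
  live : A.live p
  nv : ¬ A.Vert p
  ne : ¬ A.EE p
  sc : A.sc p (A.st p V)

theorem FPath.take {A : Auto D} {p : A.Q} {V : List A.S} (h : A.FPath p V) (t : ℕ) :
    A.FPath p (V.take t) := ⟨h.live, h.nv, h.ne, A.sc_take h.sc t⟩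

theorem FPath.drop {A : Auto D} {p : A.Q} {V : List A.S} (h : A.FPath p V) (t : ℕ) :
    A.FPath (A.st p (V.take t)) (V.drop t) := by
  have h1 := A.sc_take h.sc t
  exact ⟨A.live_sc h.live h1, fun hc => h.nv (A.Vert_sc hc (A.sc_symm h1)),
    fun hc => h.ne (A.EE_sc hc (A.sc_symm h1)), A.sc_drop h.sc t⟩

theorem FPath.loop {A : Auto D} {p : A.Q} {V : List A.S} (h : A.live p) (hn : ¬ A.Vert p)
    (hV : A.st p V = p) : D.e (A.val V) = 0 := by
  by_contra hc
  exact hn ⟨h, V, hV, hc⟩

/-- the commutation argument: a configuration `A₁ Z B` versus `Z` with values in `P`, equal modulo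
`2 ^ r`, is impossible in an F component -/
theorem no_conf {s s' : A.Q} {A1 Z B Z0 : List A.S} (hl : A.live s) (hnv : ¬ A.Vert s)
    (hne : ¬ A.EE s) (r : ℕ) (hr : ∀ (p : A.Q) (V : List A.S), A.live p → ¬ A.Vert p →
      A.sc p (A.st p V) → |D.e (A.val V)| < r)
    (hA : A.st s A1 = s) (hA0 : A1 ≠ []) (hZ : A.st s Z = s') (hZ0 : Z ≠ []) (hB : A.st s' B = s')
    (h0 : A.st s' Z0 = s) (hP : D.L (A.val Z) = 0) (hP' : D.L (A.val (A1 ++ Z ++ B)) = 0)
    (hcl : ∃ o ∈ D.O, D.x (A.val (A1 ++ Z ++ B)) - D.x (A.val Z) = 2 ^ r * o) : False := by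
  set g := A.val (A1 ++ Z ++ B) * (A.val Z)⁻¹ with hg
  have hgL : D.L g = 0 := D.L0_mul hP' (D.L0_inv hP)
  have hgx : D.x g = D.x (A.val (A1 ++ Z ++ B)) - D.x (A.val Z) := by
    rw [hg, D.x_P_mul hP', D.x_inv, D.e_of_L0 hP]
    simp [sub_eq_add_neg]
  set V := Z ++ Z0 with hV
  set U := A1 ++ Z ++ B ++ Z0 with hU
  have hVs : A.st s V = s := by rw [hV, A.st_append, hZ, h0]
  have hUs : A.st s U = s := by
    rw [hU, A.st_append, A.st_append, A.st_append, hA, hZ, hB, h0]
  have hUv : A.val U = g * A.val V := by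
    simp only [hU, hV, hg, A.val_append]; group
  -- `g` commutes with `val V`
  have hcV : D.L ((A.val V)⁻¹ * g * A.val V) = 0 := by
    apply A.conj_path r hgL ?_ V ?_
    · obtain ⟨o, ho, ho'⟩ := hcl
      exact ⟨o, ho, by rw [hgx, ho']⟩
    · intro t _
      exact hr s (V.take t) hl hnv (A.sc_take (V := V) (by rw [hVs]; exact A.sc_refl s) t)
  have heV : D.e (A.val V) = 0 := FPath.loop hl hnv hVs
  have hcomm : (A.val V)⁻¹ * g * A.val V = g := by
    apply D.P_ext hcV hgL
    rw [D.x_conj_P hgL, heV]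
    simp
  have hcomm' : g * A.val V = A.val V * g := by
    have := congrArg (fun z => A.val V * z) hcomm
    simp only [← mul_assoc, mul_inv_cancel, one_mul] at this
    exact this
  have hUV : U ++ V = V ++ U := by
    apply A.uniq_path hl.1 (V := U ++ V) (V' := V ++ U)
    · rw [A.st_append s U V, hUs, hVs]; exact hl.2
    · rw [A.st_append s U V, A.st_append s V U, hUs, hVs, hUs]
    · rw [A.val_append U V, A.val_append V U, hUv, ← mul_assoc, hcomm']
  have hrep := rep_eq_of_comm hUV
  have hval := congrArg A.val hrep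
  rw [A.val_rep, A.val_rep, hUv, (show Commute g (A.val V) from hcomm').mul_pow] at hval
  have hlen : U.length = V.length + (A1.length + B.length) := by
    rw [hU, hV]; simp; ring
  have hA1 : 0 < A1.length := List.length_pos_iff.2 hA0
  rw [hlen, pow_add] at hval
  have hval2 : A.val V ^ (A1.length + B.length) = g ^ V.length := by
    have h1 : g ^ V.length * A.val V ^ V.length = A.val V ^ V.length * g ^ V.length :=
      ((show Commute g (A.val V) from hcomm').pow_pow _ _)
    rw [h1] at hval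
    exact (mul_left_cancel hval).symm
  apply hne
  refine ⟨hl, s, rep V (A1.length + B.length), A.sc_refl s, ?_, A.st_rep hVs _, ?_⟩
  · intro hc
    have h2 := congrArg List.length hc
    rw [length_rep, List.length_nil] at h2
    have h3 : 0 < V.length := by
      rw [hV, List.length_append]
      have := List.length_pos_iff.2 hZ0
      omega
    rcases Nat.mul_eq_zero.1 h2 with h4 | h4 <;> omega
  · rw [A.val_rep, hval2]
    exact D.L0_pow hgL _

/-- bounded backtracking -/
theorem bounded_backtrack (hH : A.LemH) : ∃ R3 : ℕ, ∀ (p : A.Q) (V1 V2 : List A.S),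
    A.FPath p (V1 ++ V2) → D.L (A.val V1) + D.L (A.val V2) ≤ D.L (A.val (V1 ++ V2)) + 2 * R3 := by
  classical
  obtain ⟨CH, hCH⟩ := hH
  set r := CH + 1 with hr
  obtain ⟨F, c, hF⟩ := D.exists_class r
  refine ⟨Fintype.card A.Q * Fintype.card A.Q * F.card, fun p V1 V2 hp => ?_⟩
  by_contra hcon
  push Not at hcon
  set g := A.val V1 with hg
  set k := A.val V2 with hk
  rw [A.val_append, ← hg, ← hk] at hcon
  obtain ⟨m, hm⟩ : ∃ m : ℕ, D.L g + D.L k = D.L (g * k) + 2 * m := by
    have h1 := D.L_even g k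
    have h2 : D.L (g * k) ≤ D.L g + D.L k := D.L_mul g k
    obtain ⟨j, hj⟩ := h1
    exact ⟨j - D.L (g * k), by omega⟩
  have hmlt : Fintype.card A.Q * Fintype.card A.Q * F.card < m := by omega
  have hmg : m ≤ D.L g := by
    have h1 := D.L_mul g⁻¹ (g * k)
    rw [inv_mul_cancel_left, D.L_inv] at h1
    omega
  have hmk : m ≤ D.L k := by
    have h1 := D.L_mul (g * k) k⁻¹
    rw [mul_inv_cancel_right, D.L_inv] at h1
    omega
  -- the vertices
  have hex : ∀ l : ℕ, ∃ h, l ≤ m → D.L h = l ∧ D.L (h⁻¹ * k) = D.L k - l := by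
    intro l
    by_cases hl : l ≤ m
    · obtain ⟨h, h1, h2⟩ := D.L_geod k l (by omega)
      exact ⟨h, fun _ => ⟨h1, h2⟩⟩
    · exact ⟨1, fun h => absurd h hl⟩
  choose h hh using hex
  have hhg : ∀ l ≤ m, D.L ((h l)⁻¹ * g⁻¹) = D.L g⁻¹ - l := by
    intro l hl
    obtain ⟨h1, h2⟩ := hh l hl
    have h3 := D.L_hyp (h l) k g⁻¹
    have h4 : D.L (k⁻¹ * g⁻¹) = D.L (g * k) := by
      rw [← mul_inv_rev, D.L_inv]
    have h5 : D.L g⁻¹ ≤ D.L (h l) + D.L ((h l)⁻¹ * g⁻¹) := by
      have := D.L_mul (h l) ((h l)⁻¹ * g⁻¹)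
      rwa [mul_inv_cancel_left] at this
    rw [h1, h2, h4, D.L_inv] at h3
    rw [h1, D.L_inv] at h5
    rw [D.L_inv]
    have h6 : min ((l : ℤ) + D.L k - ((D.L k - l : ℕ) : ℤ)) ((D.L k : ℤ) + D.L g - D.L (g * k)) =
        2 * l := by
      rw [min_eq_left]
      · omega
      · omega
    rw [h6] at h3
    omega
  -- visits
  obtain ⟨T2, hT2, hT2'⟩ := D.first_visits (V2.map A.mu) (by
      intro s hs
      obtain ⟨a, _, rfl⟩ := List.mem_map.1 hs
      exact A.mu_L a) m hmk h (fun l hl => (hh l hl).1) (fun l hl => (hh l hl).2)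
  have hprod : (((V1.map A.mu).map (fun x => x⁻¹)).reverse).prod = g⁻¹ := by
    rw [← List.prod_inv_reverse]; rfl
  obtain ⟨T1, hT1, hT1'⟩ := D.first_visits ((V1.map A.mu).map (fun x => x⁻¹)).reverse (by
      intro s hs
      rw [List.mem_reverse] at hs
      obtain ⟨a, ha, rfl⟩ := List.mem_map.1 hs
      obtain ⟨b, _, rfl⟩ := List.mem_map.1 ha
      rw [D.L_inv]
      exact A.mu_L b) m (by rw [hprod, D.L_inv]; exact hmg) h (fun l hl => (hh l hl).1) (by
      intro l hl
      rw [hprod]; exact hhg l hl)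
  simp only [List.length_map, List.length_reverse] at hT1 hT2
  have hZ1 : ∀ l ≤ m, D.L (A.val (V1.drop (V1.length - T1 l)) * h l) = 0 := fun l hl => by
    have := (hT1 l hl).2
    rwa [A.prod_take_map_inv] at this
  have hZ2 : ∀ l ≤ m, D.L ((A.val (V2.take (T2 l)))⁻¹ * h l) = 0 := fun l hl => by
    have := (hT2 l hl).2
    rwa [A.prod_take_map] at this
  set Z : ℕ → List A.S := fun l => V1.drop (V1.length - T1 l) ++ V2.take (T2 l) with hZ
  have hZL : ∀ l ≤ m, D.L (A.val (Z l)) = 0 := by
    intro l hl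
    have e : A.val (Z l) = (A.val (V1.drop (V1.length - T1 l)) * h l) *
        ((A.val (V2.take (T2 l)))⁻¹ * h l)⁻¹ := by
      simp only [hZ]
      rw [A.val_append]; group
    rw [e]
    exact D.L0_mul (hZ1 l hl) (D.L0_inv (hZ2 l hl))
  -- pigeonhole
  obtain ⟨l, l', hll, hl', h1l, hs1, hs2, hcc⟩ : ∃ l l', l < l' ∧ l' ≤ m ∧ 1 ≤ l ∧
      A.st p (V1.take (V1.length - T1 l)) = A.st p (V1.take (V1.length - T1 l')) ∧
      A.st p (V1 ++ V2.take (T2 l)) = A.st p (V1 ++ V2.take (T2 l')) ∧
      c (D.x (A.val (Z l))) = c (D.x (A.val (Z l'))) := by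
    have hmaps : ∀ l ∈ Finset.Icc 1 m, (A.st p (V1.take (V1.length - T1 l)),
        A.st p (V1 ++ V2.take (T2 l)), c (D.x (A.val (Z l)))) ∈
        (Finset.univ : Finset A.Q) ×ˢ ((Finset.univ : Finset A.Q) ×ˢ F) := by
      intro l hl
      rw [Finset.mem_Icc] at hl
      simp only [Finset.mem_product, Finset.mem_univ, true_and]
      exact (hF _ (D.P_mem _ (hZL l hl.2))).1
    have hcard : ((Finset.univ : Finset A.Q) ×ˢ ((Finset.univ : Finset A.Q) ×ˢ F)).card <
        (Finset.Icc 1 m).card := by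
      rw [Finset.card_product, Finset.card_product, Finset.card_univ, Nat.card_Icc, ← mul_assoc]
      omega
    obtain ⟨l, hl, l', hl', hne, heq⟩ := Finset.exists_ne_map_eq_of_card_lt_of_maps_to hcard hmaps
    rw [Finset.mem_Icc] at hl hl'
    simp only [Prod.mk.injEq] at heq
    rcases lt_or_gt_of_ne hne with h1 | h1
    · exact ⟨l, l', h1, hl'.2, hl.1, heq.1, heq.2.1, heq.2.2⟩
    · exact ⟨l', l, h1, hl.2, hl'.1, heq.1.symm, heq.2.1.symm, heq.2.2.symm⟩
  have hlm : l ≤ m := by omega
  have hT1l := hT1' l l' hll hl'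
  have hT2l := hT2' l l' hll hl'
  have hb1 := (hT1 l' hl').1
  have hb2 := (hT2 l' hl').1
  -- decomposition
  set a := V1.length - T1 l with ha
  set a' := V1.length - T1 l' with ha'
  have haa : a' < a := by omega
  have hdrop : V1.drop a' = (V1.drop a').take (a - a') ++ V1.drop a := by
    conv_lhs => rw [← List.take_append_drop (a - a') (V1.drop a')]
    rw [List.drop_drop]
    congr 2
    omega
  have htake : V2.take (T2 l') = V2.take (T2 l) ++ (V2.drop (T2 l)).take (T2 l' - T2 l) := by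
    have := List.take_add (l := V2) (i := T2 l) (j := T2 l' - T2 l)
    rwa [Nat.add_sub_cancel' hT2l.le] at this
  have hlive : A.FPath (A.st p (V1.take a)) ((V1 ++ V2).drop a) := by
    have h1 := hp.drop a
    have e : (V1 ++ V2).take a = V1.take a := by
      rw [List.take_append_of_le_length (by omega)]
    rwa [e] at h1
  have hZl' : Z l' = (V1.drop a').take (a - a') ++ Z l ++ (V2.drop (T2 l)).take (T2 l' - T2 l) := by
    simp only [hZ]
    rw [← ha, ← ha', htake]
    conv_lhs => rw [hdrop]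
    simp only [List.append_assoc]
  have hsA : A.st (A.st p (V1.take a)) ((V1.drop a').take (a - a')) = A.st p (V1.take a) := by
    conv_lhs => rw [hs1]
    rw [← A.st_append]
    congr 1
    have := List.take_add (l := V1) (i := a') (j := a - a')
    rw [Nat.add_sub_cancel' haa.le] at this
    exact this.symm
  have hsZ : A.st (A.st p (V1.take a)) (Z l) = A.st p (V1 ++ V2.take (T2 l)) := by
    simp only [hZ]
    rw [← A.st_append, ← List.append_assoc, ← ha, List.take_append_drop]
  have hsB : A.st (A.st p (V1 ++ V2.take (T2 l))) ((V2.drop (T2 l)).take (T2 l' - T2 l)) =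
      A.st p (V1 ++ V2.take (T2 l)) := by
    conv_rhs => rw [hs2]
    rw [← A.st_append, List.append_assoc, ← htake]
  -- a path back
  have hscp : A.sc p (A.st p (V1 ++ V2.take (T2 l))) := by
    have h1 := A.sc_take hp.sc (V1.length + T2 l)
    have e : (V1 ++ V2).take (V1.length + T2 l) = V1 ++ V2.take (T2 l) := by
      rw [List.take_length_add_append]
    rwa [e] at h1
  have hscs : A.sc (A.st p (V1 ++ V2.take (T2 l))) (A.st p (V1.take a)) := by
    have h2 := A.sc_take hp.sc a
    rw [List.take_append_of_le_length (by omega)] at h2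
    exact A.sc_trans (A.sc_symm hscp) h2
  obtain ⟨⟨Z0, hZ0⟩, -⟩ := hscs
  have hZne : Z l ≠ [] := by
    intro hc
    have h1 := hZ2 l hlm
    have h2 : V2.take (T2 l) = [] := by
      simp only [hZ] at hc
      exact (List.append_eq_nil_iff.1 hc).2
    rw [h2, A.val_nil, inv_one, one_mul, (hh l hlm).1] at h1
    omega
  refine A.no_conf hlive.live hlive.nv hlive.ne r ?_ hsA ?_ hsZ hZne hsB hZ0 (hZL l hlm) ?_ ?_
  · intro q W h1 h2 h3
    have := hCH q W h1 h2 h3
    rw [hr]; push_cast; omega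
  · intro hc
    have := congrArg List.length hc
    rw [List.length_take, List.length_drop, List.length_nil] at this
    omega
  · rw [← hZl']; exact hZL l' hl'
  · rw [← hZl']
    obtain ⟨-, o, ho, ho'⟩ := hF _ (D.P_mem _ (hZL l hlm))
    obtain ⟨-, o', ho2, ho2'⟩ := hF _ (D.P_mem _ (hZL l' hl'))
    refine ⟨o' - o, D.O.sub_mem ho2 ho, ?_⟩
    rw [← hcc] at ho2'
    linear_combination ho2' - ho'

/-- a path staying in a ball is short -/
theorem leaves_ball (R : ℕ) : ∃ n0 : ℕ, 0 < n0 ∧ ∀ (p : A.Q) (V : List A.S), A.FPath p V →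
    n0 ≤ V.length → ∃ t ≤ n0, R < D.L (A.val (V.take t)) := by
  classical
  obtain ⟨F, c, hF⟩ := D.finite_vertices R
  refine ⟨Fintype.card A.Q * F.card + 1, by omega, fun p V hp hV => ?_⟩
  by_contra hcon
  push Not at hcon
  have hmaps : ∀ t ∈ Finset.range (Fintype.card A.Q * F.card + 1), (A.st p (V.take t),
      c (A.val (V.take t))) ∈ (Finset.univ : Finset A.Q) ×ˢ F := by
    intro t ht
    rw [Finset.mem_range] at ht
    simp only [Finset.mem_product, Finset.mem_univ, true_and]
    exact (hF _ (hcon t ht.le)).1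
  have hcard : ((Finset.univ : Finset A.Q) ×ˢ F).card <
      (Finset.range (Fintype.card A.Q * F.card + 1)).card := by
    rw [Finset.card_product, Finset.card_univ, Finset.card_range]
    omega
  obtain ⟨t1, ht1, t2, ht2, hne, heq⟩ := Finset.exists_ne_map_eq_of_card_lt_of_maps_to hcard hmaps
  rw [Finset.mem_range] at ht1 ht2
  simp only [Prod.mk.injEq] at heq
  obtain ⟨t, t', htt, ht', hst, hcc⟩ : ∃ t t', t < t' ∧ t' < Fintype.card A.Q * F.card + 1 ∧
      A.st p (V.take t) = A.st p (V.take t') ∧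
      c (A.val (V.take t)) = c (A.val (V.take t')) := by
    rcases lt_or_gt_of_ne hne with h1 | h1
    · exact ⟨t1, t2, h1, ht2, heq.1, heq.2⟩
    · exact ⟨t2, t1, h1, ht1, heq.1.symm, heq.2.symm⟩
  have htake : V.take t' = V.take t ++ (V.drop t).take (t' - t) := by
    have := List.take_add (l := V) (i := t) (j := t' - t)
    rwa [Nat.add_sub_cancel' htt.le] at this
  have h1 := (hp.drop t)
  apply h1.ne
  refine ⟨h1.live, _, (V.drop t).take (t' - t), A.sc_refl _, ?_, ?_, ?_⟩
  · intro hc
    have := congrArg List.length hc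
    rw [List.length_take, List.length_drop, List.length_nil] at this
    omega
  · rw [← A.st_append, ← htake, ← hst]
  · have e : A.val ((V.drop t).take (t' - t)) = (A.val (V.take t))⁻¹ * A.val (V.take t') := by
      rw [htake, A.val_append]; group
    have e2 : (A.val (V.take t))⁻¹ * A.val (V.take t') =
        ((c (A.val (V.take t)))⁻¹ * A.val (V.take t))⁻¹ *
          ((c (A.val (V.take t')))⁻¹ * A.val (V.take t')) := by
      rw [← hcc]; group
    rw [e, e2]
    exact D.L0_mul (D.L0_inv (hF _ (hcon t (by omega))).2) (hF _ (hcon t' ht'.le)).2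

/-- Lemma 4 -/
theorem lemF (hH : A.LemH) : A.LemF := by
  obtain ⟨R3, hR3⟩ := A.bounded_backtrack hH
  obtain ⟨n0, hn0, hball⟩ := A.leaves_ball (2 * R3)
  have key : ∀ (n : ℕ) (p : A.Q) (V : List A.S), V.length = n → A.FPath p V →
      V.length ≤ n0 * (1 + D.L (A.val V)) := by
    intro n
    induction n using Nat.strong_induction_on with
    | _ n ih =>
      intro p V hn hp
      rcases lt_or_ge V.length n0 with h1 | h1
      · nlinarith
      · obtain ⟨t, ht, htR⟩ := hball p V hp h1
        have ht0 : 0 < t := by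
          rcases Nat.eq_zero_or_pos t with h0 | h0
          · subst h0
            rw [List.take_zero, A.val_nil, D.L_one] at htR
            omega
          · exact h0
        have h2 := ih (V.drop t).length (by rw [List.length_drop]; omega) _ (V.drop t) rfl
          (hp.drop t)
        have h3 := hR3 p (V.take t) (V.drop t) (by rw [List.take_append_drop]; exact hp)
        rw [List.take_append_drop] at h3
        have h4 : 1 + D.L (A.val (V.drop t)) ≤ D.L (A.val V) := by omega
        have h5 : V.length ≤ n0 + (V.drop t).length := by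
          rw [List.length_drop]; omega
        calc V.length ≤ n0 + n0 * (1 + D.L (A.val (V.drop t))) := by omega
          _ ≤ n0 + n0 * D.L (A.val V) := by gcongr
          _ = n0 * (1 + D.L (A.val V)) := by ring
  refine ⟨n0, Nat.cast_nonneg _, fun p V h1 h2 h3 h4 => ?_⟩
  have := key V.length p V rfl ⟨h1, h2, h3, h4⟩
  exact_mod_cast this

end Auto

end H57.QI
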